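import Pool.Agent.V11273.PV.G19

/-!
# Gel'fond's conjecture in bounded degree and height at almost all algebraic points of all varieties

Let `U` be a nonempty connected open set of `ℂ^d`, `d ≥ 1`, let `α_1, …, α_n` be algebraic functions on `U` (analytic branches)
such that no nontrivial combination of them with integral coefficients is constant, and let `λ_1, …, λ_m` be analytic
functions on `U` such that the functions `β_j = exp(λ_j)` are algebraic and no nontrivial combination of the `λ_j` with integral
coefficients is constant, that is, the `β_j` are multiplicatively independent modulo constants. The functions `α_i`, `β_j` may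
satisfy any algebraic relations: as every variety is locally finite over an affine space, `(α, β)` is an arbitrary family of
algebraic points `(α, β)` parametrised by a variety of dimension `d`, together with a branch of the logarithms `λ = log β`.

If `U` is defined over the algebraic numbers and `z` is an algebraic point of `U` then the `α_i(z)` and `β_j(z)` are
algebraic numbers, and if they are independent, then the `n + m` numbers

  `exp(α_1(z)), …, exp(α_n(z)), λ_1(z), …, λ_m(z)`

are algebraically independent according to the conjecture of Gel'fond. We prove that for all `z` with coordinates of height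
at most `T` in a number field of degree at most `ω T`, outside of a sparse set, these numbers satisfy no polynomial relation of
degree at most `ω T` and height at most `T ^ ω T`, not even with coefficients which are combinations of arbitrary fixed complex
numbers `ξ_i`. Here `ω T → ∞`.
-/

set_option autoImplicit false

open Filter NumberField

namespace Pool.Agent.Results.MP_c82530_nt.AlgebraicFunctions

/-- `g` is an algebraic function of the coordinates on `U`: it satisfies an equation `Q(x, g(x)) = 0`, `Q ≠ 0` a polynomial -/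
def IsAlgebraicOn {X : Type} (U : Set (X → ℂ)) (g : (X → ℂ) → ℂ) : Prop :=
  ∃ Q : Polynomial (MvPolynomial X ℂ), Q ≠ 0 ∧ ∀ x ∈ U, Q.eval₂ (MvPolynomial.eval x) (g x) = 0

/-- no nontrivial combination of the functions with integral coefficients is constant on `U` -/
def Independent {X : Type} (U : Set (X → ℂ)) {n : ℕ} (g : Fin n → (X → ℂ) → ℂ) : Prop :=
  ∀ a : Fin n → ℤ, a ≠ 0 → ∀ b : ℂ, ∃ z ∈ U, ∑ i, (a i : ℂ) * g i z ≠ b

/-- quotients of two integers of `K`, all conjugates of which are at most `T` -/
def HeightLe (K : Type) [Field K] [NumberField K] (T : ℝ) (x : K) : Prop :=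
  ∃ a b : 𝓞 K, b ≠ 0 ∧ house (a : K) ≤ T ∧ house (b : K) ≤ T ∧ x = a / b

/-- `S` is covered by at most `m` hypersurfaces of degree at most `D` -/
def CoveredBy {X : Type} (D m : ℕ) (S : Set (X → ℂ)) : Prop :=
  ∃ Φ : Finset (MvPolynomial X ℂ), Φ.card ≤ m ∧ (∀ P ∈ Φ, P ≠ 0 ∧ P.totalDegree ≤ D) ∧
    ∀ x ∈ S, ∃ P ∈ Φ, MvPolynomial.eval x P = 0

/-- the points of norm at most `k` at distance at least `1 / k` from the complement of `U` -/
def Inner {X : Type} [Fintype X] (U : Set (X → ℂ)) (k : ℕ) : Set (X → ℂ) :=
  {z | ‖z‖ ≤ k ∧ Metric.ball z (k : ℝ)⁻¹ ⊆ U}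

/-- the partial degrees of `P` are at most `k`, and its coefficients are `∑ ξ i * c i`, `i < k`, where the `c i` are
integers of `K`, all conjugates of which are at most `T ^ k` -/
def Small {σ : Type} (K : Type) [Field K] [NumberField K] (io : K →+* ℂ) (k : ℕ) (ξ : Fin k → ℂ) (T : ℝ)
    (P : MvPolynomial σ ℂ) : Prop :=
  (∀ y, P.degreeOf y ≤ k) ∧ ∀ m, ∃ c : Fin k → 𝓞 K, (∀ i (φ : K →+* ℂ), ‖φ (c i : K)‖ ≤ T ^ (k : ℝ)) ∧
    P.coeff m = ∑ i, ξ i * io (c i : K)

/-- The exceptional points `z` over `K`: they are of height at most `T`, in the compact set `Inner U k`, and some nonzero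
small polynomial vanishes at the numbers `exp(α_i(z))`, `λ_j(z)`. -/
def Exceptional {X : Type} [Fintype X] {n m : ℕ} (U : Set (X → ℂ)) (α : Fin n → (X → ℂ) → ℂ) (l : Fin m → (X → ℂ) → ℂ)
    (K : Type) [Field K] [NumberField K] (io : K →+* ℂ) (k : ℕ) (ξ : Fin k → ℂ) (T : ℝ) : Set (X → K) :=
  {z | (∀ i, HeightLe K T (z i)) ∧ (fun i => io (z i)) ∈ Inner U k ∧
    ∃ P : MvPolynomial (Fin n ⊕ Fin m) ℂ, P ≠ 0 ∧ Small K io k ξ T P ∧
      MvPolynomial.eval (Sum.elim (fun i => Complex.exp (α i fun x => io (z x))) fun j => l j fun x => io (z x)) P = 0}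

/-- Let `α_i`, `i < n`, be algebraic functions on a nonempty connected open set `U` of `ℂ^d`, `d ≥ 1`, and let the exponentials of
the analytic functions `λ_j`, `j < m`, be algebraic, such that neither a nontrivial combination of the `α_i` nor one of the
`λ_j`, with integral coefficients, is constant. There is `ω → ∞` such that for all large `T`, all number fields `K` of degree
at most `ω T`, embedded in `ℂ`, and all complex numbers `ξ i`, `i < ω T`, the set of the exceptional points lies on at most
`T ^ (1 / ω T)` hypersurfaces of degree at most `T ^ (1 / ω T)`, and has at most `T ^ (1 / ω T) * N ^ (d - 1)` elements, where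
`N` is the number of the elements of `K` of height at most `T`. At all other points `z` with coordinates in `K` of height at
most `T` (in `Inner U (ω T)`) the `n + m` numbers `exp(α_i(z))`, `λ_j(z)` satisfy no nonzero polynomial relation of partial
degrees at most `ω T` with coefficients `∑ ξ i * c i`, `c i` integers of `K` of size at most `T ^ ω T`. -/
theorem result {X : Type} [Fintype X] [DecidableEq X] [Nonempty X] {n m : ℕ} (hnm : 0 < n + m) (U : Set (X → ℂ))
    (hU : IsOpen U) (hUc : IsPreconnected U) (hUn : U.Nonempty)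
    (α : Fin n → (X → ℂ) → ℂ) (hα : ∀ i, AnalyticOnNhd ℂ (α i) U) (hαa : ∀ i, IsAlgebraicOn U (α i))
    (hαi : Independent U α)
    (l : Fin m → (X → ℂ) → ℂ) (hl : ∀ j, AnalyticOnNhd ℂ (l j) U)
    (hla : ∀ j, IsAlgebraicOn U fun z => Complex.exp (l j z)) (hli : Independent U l) :
    ∃ (ω : ℝ → ℕ) (T₀ : ℝ), Tendsto ω atTop atTop ∧ Monotone ω ∧ ∀ T, T₀ ≤ T → 0 < ω T ∧
      ∀ (K : Type) [Field K] [NumberField K], Module.finrank ℚ K ≤ ω T → ∀ (io : K →+* ℂ) (ξ : Fin (ω T) → ℂ),
        CoveredBy ⌊T ^ ((ω T : ℝ)⁻¹)⌋₊ ⌊T ^ ((ω T : ℝ)⁻¹)⌋₊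
          ((fun z i => io (z i)) '' Exceptional U α l K io (ω T) ξ T) ∧
        (Exceptional U α l K io (ω T) ξ T).Finite ∧
        ((Exceptional U α l K io (ω T) ξ T).ncard : ℝ) ≤
          T ^ ((ω T : ℝ)⁻¹) * ({x : K | HeightLe K T x}.ncard : ℝ) ^ (Fintype.card X - 1) := by
  have h1 := Pool.Agent.V11273.PV.gel_ind (U := U) (α := α) (L := l) hUc hU hUn hα hαa (by
    intro c b hb
    by_contra hne
    obtain ⟨z, hz, hzn⟩ := hαi c hne b
    exact hzn (hb z hz)) hl hla (by
    intro c b hb
    by_contra hne
    obtain ⟨z, hz, hzn⟩ := hli c hne b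
    exact hzn (hb z hz)) hnm
  have h2 := Pool.Agent.V11273.PV.main_indep1 hUc hU hUn (f := Sum.elim (fun i z => Complex.exp (α i z)) l) (by
    rintro (i | j)
    · exact fun z hz => (hα i z hz).cexp
    · exact hl j) h1
  obtain ⟨ω, T₀, h3, h4, h5⟩ := h2
  refine ⟨ω, T₀, h3, h4, fun T hT => ⟨(h5 T hT).1, fun K _ _ hK io ξ => ?_⟩⟩
  have h6 := (h5 T hT).2 K hK io ξ
  have h7 : Exceptional U α l K io (ω T) ξ T = Pool.Agent.V11273.PV.ExcB U
      (Sum.elim (fun i z => Complex.exp (α i z)) l) (fun _ P => P ≠ 0) K io (ω T) ξ T := by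
    ext x
    have h8 : (fun s : Fin n ⊕ Fin m => (Sum.elim (fun i z => Complex.exp (α i z)) l : Fin n ⊕ Fin m → (X → ℂ) → ℂ) s
        (fun i => io (x i))) = Sum.elim (fun i => Complex.exp (α i fun i => io (x i))) fun j => l j fun i => io (x i) := by
      funext s
      rcases s with i | j <;> rfl
    constructor
    · rintro ⟨hx1, hx2, P, hP1, hP2, hP3⟩
      refine ⟨hx1, hx2, P, hP2, ?_, hP1⟩
      rw [h8]
      exact hP3
    · rintro ⟨hx1, hx2, P, hP1, hP2, hP3⟩
      refine ⟨hx1, hx2, P, hP3, hP1, ?_⟩
      rw [h8] at hP2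
      exact hP2
  rw [h7]
  exact h6

end Pool.Agent.Results.MP_c82530_nt.AlgebraicFunctions
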