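import Pool.Agent.Helper264.NT.NearPV2
import Pool.Agent.V11273.PV.G19

/-!
# Gel'fond's conjecture in bounded degree and height at ALL algebraic points near almost every point, for all varieties

Let `U` be a nonempty connected open set of `ℂ^d`, `d ≥ 1`, let `α_1, …, α_n` be algebraic functions on `U` (analytic branches)
such that no nontrivial combination of them with integral coefficients is constant, and let `λ_1, …, λ_m` be analytic
functions on `U` such that the functions `β_j = exp(λ_j)` are algebraic and no nontrivial combination of the `λ_j` with integral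
coefficients is constant, that is, the `β_j` are multiplicatively independent modulo constants. The functions `α_i`, `β_j` may
satisfy any algebraic relations: `(α, β)` is an arbitrary family of algebraic points parametrised by a variety of dimension
`d`, together with a branch of the logarithms `λ = log β`. If `U` is defined over the algebraic numbers and `s` is an algebraic
point of `U`, then the `n + m` numbers `exp(α_1(s)), …, exp(α_n(s)), λ_1(s), …, λ_m(s)` are algebraically independent
according to the conjecture of Gel'fond, if the `α_i(s)` and the `β_j(s)` are independent.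

There is a set `E` in `ℂ^d` of Hausdorff dimension at most `2 d - 2` such that near every point `z` of `U` outside of `E` there
are no exceptional points: for all `w > 0` (arbitrarily small), all number fields `K` and all `k`, for large `T`, at ALL points
`s` with coordinates in `K` of height at most `T` at distance at most `T ^ (-w)` from `z` these `n + m` numbers satisfy no
nonzero polynomial relation of partial degrees at most `k` with coefficients `∑ ξ i * c i`, `i < k`, `c i` integers of `K` of
size at most `T ^ k`, `ξ i` any given complex numbers. For real points `z` the same holds outside of a set in `ℝ^d` of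
dimension at most `d - 1`. The dimensions are sharp: for `d = 2`, `n = 0`, `β_i(x) = x_i` the diagonal consists of exceptional
points.
-/

set_option autoImplicit false

open Filter NumberField
open scoped ENNReal

namespace Pool.Agent.Results.MP_c82530_nt.NearEveryPoint

/-- `g` is an algebraic function of the coordinates on `U`: it satisfies an equation `Q(x, g(x)) = 0`, `Q ≠ 0` a polynomial -/
def IsAlgebraicOn {X : Type} (U : Set (X → ℂ)) (g : (X → ℂ) → ℂ) : Prop :=
  ∃ Q : Polynomial (MvPolynomial X ℂ), Q ≠ 0 ∧ ∀ x ∈ U, Q.eval₂ (MvPolynomial.eval x) (g x) = 0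

/-- no nontrivial combination of the functions with integral coefficients is constant on `U` -/
def Independent {X : Type} (U : Set (X → ℂ)) {n : ℕ} (g : Fin n → (X → ℂ) → ℂ) : Prop :=
  ∀ a : Fin n → ℤ, a ≠ 0 → ∀ b : ℂ, ∃ z ∈ U, ∑ i, (a i : ℂ) * g i z ≠ b

/-- quotients of two integers of `K`, all conjugates of which are at most `T` -/
def HeightLe (K : Type) [Field K] [NumberField K] (T : ℝ) (x : K) : Prop :=
  ∃ a b : 𝓞 K, b ≠ 0 ∧ house (a : K) ≤ T ∧ house (b : K) ≤ T ∧ x = a / b

/-- for a number field `K` embedded into `ℂ` by `io`: the partial degrees of `P` are at most `k`, and its coefficients are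
`∑ ξ i * c i`, `i < k`, where the `c i` are integers of `K`, all conjugates of which are at most `T ^ k` -/
def Small {σ : Type} (K : Type) [Field K] [NumberField K] (io : K →+* ℂ) (k : ℕ) (ξ : ℕ → ℂ) (T : ℝ)
    (P : MvPolynomial σ ℂ) : Prop :=
  (∀ y, P.degreeOf y ≤ k) ∧ ∀ m, ∃ c : Fin k → 𝓞 K, (∀ i (φ : K →+* ℂ), ‖φ (c i : K)‖ ≤ T ^ (k : ℝ)) ∧
    P.coeff m = ∑ i : Fin k, ξ i * io (c i : K)

/-- At all points `s` with coordinates in the number field `K` (embedded into `ℂ` by `io`) of height at most `T` and with
`|s i - z i| ≤ T ^ (-w)` for all `i`, no nonzero small polynomial vanishes at the numbers `v a s`. -/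
def NoRelationNear {X S : Type} (v : S → (X → ℂ) → ℂ) (ξ : ℕ → ℂ) (z : X → ℂ) (w : ℝ) (K : Type) [Field K]
    [NumberField K] (io : K →+* ℂ) (k : ℕ) (T : ℝ) : Prop :=
  ∀ s : X → K, (∀ i, HeightLe K T (s i)) → (∀ i, ‖io (s i) - z i‖ ≤ T ^ (-w)) →
    ∀ P : MvPolynomial S ℂ, Small K io k ξ T P →
      MvPolynomial.eval (fun a => v a fun i => io (s i)) P = 0 → P = 0

/-- The numbers `v a s` are independent in bounded degree and height at ALL algebraic points `s` near almost every point of
`U`, `d` being the number of coordinates:
(1) there is a set `E` in `ℂ ^ d` of Hausdorff dimension at most `2 (d - 1)` such that for all `z ∈ U` outside of `E`, all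
`w > 0`, all number fields `K ⊂ ℂ` and all `k`, `NoRelationNear v ξ z w K k T` holds for all large `T`;
(2) there is a set `E` in `ℝ ^ d` of dimension at most `d - 1` such that the same is true for all real `z ∈ U` outside of `E`
and all number fields `K ⊂ ℝ`. -/
def IndependentNearAlmostAll {X S : Type} [Fintype X] (U : Set (X → ℂ)) (v : S → (X → ℂ) → ℂ) (ξ : ℕ → ℂ) : Prop :=
  (∃ E : Set (X → ℂ), dimH E ≤ ((2 * (Fintype.card X - 1) : ℕ) : ℝ≥0∞) ∧ ∀ z ∈ U, z ∉ E → ∀ w : ℝ, 0 < w →
    ∀ (K : IntermediateField ℚ ℂ) [NumberField K] (k : ℕ), ∀ᶠ T : ℝ in atTop,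
      NoRelationNear v ξ z w K (algebraMap K ℂ) k T) ∧
  ∃ E : Set (X → ℝ), dimH E ≤ ((Fintype.card X - 1 : ℕ) : ℝ≥0∞) ∧
    ∀ z : X → ℝ, (fun i => (z i : ℂ)) ∈ U → z ∉ E → ∀ w : ℝ, 0 < w →
    ∀ (K : IntermediateField ℚ ℝ) [NumberField K] (k : ℕ), ∀ᶠ T : ℝ in atTop,
      NoRelationNear v ξ (fun i => (z i : ℂ)) w K (Complex.ofRealHom.comp (algebraMap K ℝ)) k T

/-- Let `α_i`, `i < n`, be algebraic functions on a nonempty connected open set `U` of `ℂ^d`, `d ≥ 1`, and let the exponentials of
the analytic functions `λ_j`, `j < m`, be algebraic, such that neither a nontrivial combination of the `α_i` nor one of the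
`λ_j`, with integral coefficients, is constant. For all complex numbers `ξ i` the `n + m` numbers `exp(α_i(s))`, `λ_j(s)` are
independent in bounded degree and height at ALL algebraic points `s` near every point of `U` outside of a set of dimension at
most `2 (d - 1)` (complex points), `d - 1` (real points): see `IndependentNearAlmostAll`. -/
theorem result {X : Type} [Fintype X] [DecidableEq X] [Nonempty X] {n m : ℕ} (hnm : 0 < n + m) (U : Set (X → ℂ))
    (hU : IsOpen U) (hUc : IsPreconnected U) (hUn : U.Nonempty)
    (α : Fin n → (X → ℂ) → ℂ) (hα : ∀ i, AnalyticOnNhd ℂ (α i) U) (hαa : ∀ i, IsAlgebraicOn U (α i))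
    (hαi : Independent U α)
    (l : Fin m → (X → ℂ) → ℂ) (hl : ∀ j, AnalyticOnNhd ℂ (l j) U)
    (hla : ∀ j, IsAlgebraicOn U fun z => Complex.exp (l j z)) (hli : Independent U l) (ξ : ℕ → ℂ) :
    IndependentNearAlmostAll U (Sum.elim (fun i z => Complex.exp (α i z)) l) ξ := by
  have h1 := Pool.Agent.V11273.PV.gel_ind (U := U) (α := α) (L := l) hUc hU hUn hα hαa (by
    intro c b hb
    by_contra hne
    obtain ⟨z, hz, hzn⟩ := hαi c hne b
    exact hzn (hb z hz)) hl hla (by
    intro c b hb
    by_contra hne
    obtain ⟨z, hz, hzn⟩ := hli c hne b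
    exact hzn (hb z hz)) hnm
  exact Pool.Agent.Helper264.NT.near_two hUc hU hUn (f := Sum.elim (fun i z => Complex.exp (α i z)) l) (by
    rintro (i | j)
    · exact fun z hz => (hα i z hz).cexp
    · exact hl j) h1 ξ

end Pool.Agent.Results.MP_c82530_nt.NearEveryPoint
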