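import Pool.Agent.Results.MP_c82530_nt.NumberFieldTuples
import Pool.Agent.V11300.PA.Classes

/-!
# Gel'fond's conjecture in bounded degree for ALL tuples of integers of a number field in the residue classes modulo `p ^ f`
of almost every `p`-adic matrix

Let `ω_0 ≠ 0, ω_1, …, ω_m` be algebraic numbers (for instance an integral basis of a number field), `θ_1, …, θ_r` distinct
algebraic numbers, and let there be given countably many sequences `(α_{s,f})_f` of `l`-tuples of `ℚ`-linearly independent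
algebraic numbers; let `p` be a prime number and `κ > 0`. For every `k × (m + 1)` matrix `A` over `ℤ_p` outside a set of
Hausdorff dimension at most `κ (k (m + 1) - c)`, all `s` and all large `f`, ALL `k`-tuples of elements
`β_i = ∑_j N_{i j} ω_j` of the lattice with `|N_{i j}| ≤ p ^ (κ f)` and `N_{i j} ≡ A_{i j} mod p ^ f` for all `i`, `j` have
the following property: for every choice of the logarithms `x_{(i,t)}` of the `k r` numbers `β_i + θ_t`, no nonzero
polynomial of total degree at most `δ` over a number field of degree at most `d` vanishes at the numbers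
`e^{α_1}, …, e^{α_l}` (`α = α_{s,f}`) and `x_{(i,t)}`. (The space of the matrices has dimension `k (m + 1)`; for
`1 < κ < k (m + 1) / (k (m + 1) - c)` each class contains many matrices.)

The proof combines the power saving of the starting result `NumberFieldTuples` with a covering argument in
`ℤ_p ^ (k (m + 1))`. The definitions `num` and `Related` are those of that file.
-/

set_option autoImplicit false

open MeasureTheory

namespace Pool.Agent.Results.MP_c82530_nt.TuplesInResidueClasses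

open Pool.Agent.Results.MP_c82530_nt.NumberFieldTuples

theorem result {m r : ℕ} (ω : Fin (m + 1) → ℂ) (hω : ∀ j, IsAlgebraic ℚ (ω j)) (hω0 : ω 0 ≠ 0)
    (θ : Fin r → ℂ) (hθ : ∀ j, IsAlgebraic ℚ (θ j)) (hinj : Function.Injective θ) (k l δ d : ℕ) (hk : 1 ≤ k) :
    ∃ c : ℝ, 0 < c ∧ c ≤ k * (m + 1) ∧ ∀ (p : ℕ) [Fact p.Prime] (α : ℕ → ℕ → Fin l → ℂ),
      (∀ s f i, IsAlgebraic ℚ (α s f i)) → (∀ s f, LinearIndependent ℚ (α s f)) →
      ∀ κ : ℝ, 0 < κ →
      ∃ E : Set (Fin k × Fin (m + 1) → ℤ_[p]), dimH E ≤ ENNReal.ofReal (κ * ((k : ℝ) * (m + 1) - c)) ∧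
        ∀ A : Fin k × Fin (m + 1) → ℤ_[p], A ∉ E → ∀ s : ℕ, ∃ f₀ : ℕ, ∀ f : ℕ, f₀ ≤ f →
          ∀ N : Fin k → Fin (m + 1) → ℤ, (∀ i j, |(N i j : ℝ)| ≤ (p : ℝ) ^ (κ * f)) →
          (∀ i j, (p : ℤ_[p]) ^ f ∣ (N i j : ℤ_[p]) - A (i, j)) →
          ¬ Related δ d (α s f) ω θ N := by
  obtain ⟨c, hc, C, hC⟩ := NumberFieldTuples.result ω hω hω0 θ hθ hinj k l δ d
  have hk1 : (1 : ℝ) ≤ k := by exact_mod_cast hk
  have hkm : (0 : ℝ) < k * (m + 1) := by positivity
  refine ⟨min c (k * (m + 1)), lt_min hc hkm, min_le_right _ _, fun p _ α hα hli κ hκ => ?_⟩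
  have hs : 0 ≤ (k : ℝ) * (m + 1) - min c (k * (m + 1)) := by linarith [min_le_right c ((k : ℝ) * (m + 1))]
  obtain ⟨E, hE, h⟩ := Pool.Agent.V11300.PA.classes_int p (ι := Fin k × Fin (m + 1)) hs hκ
    (fun s f => {N : Fin k × Fin (m + 1) → ℤ | Related δ d (α s f) ω θ (fun i j => N (i, j))}) (fun _ => |C|) (by
      intro s n T hT
      obtain ⟨hfin, hle⟩ := hC (α s n) (hα s n) (hli s n) T hT
      have hT1 : (1 : ℝ) ≤ T := by exact_mod_cast hT
      have hinj' : Function.Injective (fun N : Fin k × Fin (m + 1) → ℤ => fun (i : Fin k) (j : Fin (m + 1)) => N (i, j)) := by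
        intro N N' h
        funext p
        exact congrFun (congrFun h p.1) p.2
      have himg : (fun N : Fin k × Fin (m + 1) → ℤ => fun (i : Fin k) (j : Fin (m + 1)) => N (i, j)) ''
          {N : Fin k × Fin (m + 1) → ℤ | N ∈ {N : Fin k × Fin (m + 1) → ℤ | Related δ d (α s n) ω θ (fun i j => N (i, j))} ∧
            ∀ p, |N p| ≤ T} ⊆
          {N : Fin k → Fin (m + 1) → ℤ | (∀ i j, |N i j| ≤ T) ∧ Related δ d (α s n) ω θ N} := by
        rintro _ ⟨N, ⟨h1, h2⟩, rfl⟩
        exact ⟨fun i j => h2 (i, j), h1⟩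
      have hfin2 : {N : Fin k × Fin (m + 1) → ℤ | N ∈ {N : Fin k × Fin (m + 1) → ℤ | Related δ d (α s n) ω θ (fun i j => N (i, j))} ∧
          ∀ p : Fin k × Fin (m + 1), |N p| ≤ T}.Finite := (hfin.subset himg).of_finite_image hinj'.injOn
      refine ⟨hfin2, ?_⟩
      rw [← Set.ncard_image_of_injective _ hinj']
      refine ((Nat.cast_le (α := ℝ)).2 (Set.ncard_le_ncard himg hfin)).trans (hle.trans ?_)
      refine mul_le_mul (le_abs_self C) ?_ (by positivity) (abs_nonneg C)
      apply Real.rpow_le_rpow_of_exponent_le hT1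
      push_cast
      linarith [min_le_left c ((k : ℝ) * (m + 1))])
  refine ⟨E, hE, fun A hA s => ?_⟩
  obtain ⟨f₀, hf⟩ := h A hA s
  exact ⟨f₀, fun f hf1 N hN hd hrel => hf f hf1 (fun q => N q.1 q.2) (fun q => hN q.1 q.2) (fun q => hd q.1 q.2) hrel⟩

end Pool.Agent.Results.MP_c82530_nt.TuplesInResidueClasses
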