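import Pool.Agent.Results.MP_c82530_nt.NumberFieldTuples
import Pool.Agent.V11326.WI

/-!
# Gel'fond's conjecture in bounded degree for ALL tuples of integers of a number field in boxes around `v_n A`, for almost
all real matrices `A`

Let `ω_0 ≠ 0, ω_1, …, ω_m` be algebraic numbers (for instance an integral basis of a number field), `θ_1, …, θ_r` distinct
algebraic numbers, and let there be given countably many sequences `(α_{s,n})_n` of `l`-tuples of `ℚ`-linearly independent
algebraic numbers. For every real `k × (m + 1)` matrix `A` outside a set of small Hausdorff dimension (and of measure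
zero, if the side `v_n ^ η` of the boxes is a small power of `v_n`), all `s` and all large `n`, ALL `k`-tuples of elements
`β_i = ∑_j N_{i j} ω_j` of the lattice with `|N_{i j} - A_{i j} v_n| ≤ v_n ^ η` for all `i`, `j` have the following property:
for every choice of the logarithms `x_{(i,s)}` of the `k r` numbers `β_i + θ_s`, no nonzero polynomial of total degree at
most `δ` over a number field of degree at most `d` vanishes at the numbers `e^{α_1}, …, e^{α_l}` and `x_{(i,s)}`.

The proof combines the power saving of the starting result `NumberFieldTuples` with a covering argument in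
`ℝ ^ (k (m + 1))`. The definitions `num` and `Related` are those of that file.
-/

set_option autoImplicit false

open MeasureTheory

namespace Pool.Agent.Results.MP_c82530_nt.TuplesInWindows

open Pool.Agent.Results.MP_c82530_nt.NumberFieldTuples

/-- The exponent of convergence of the sequence `v` is at most `τ`: the sum of the `v_n ^ (-p)` converges for all
`p > τ`. -/
def ExpLe (v : ℕ → ℝ) (τ : ℝ) : Prop := ∀ p : ℝ, τ < p → Summable fun n => (v n) ^ (-p)

theorem result {m r : ℕ} (ω : Fin (m + 1) → ℂ) (hω : ∀ j, IsAlgebraic ℚ (ω j)) (hω0 : ω 0 ≠ 0)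
    (θ : Fin r → ℂ) (hθ : ∀ j, IsAlgebraic ℚ (θ j)) (hinj : Function.Injective θ) (k l δ d : ℕ) (hk : 1 ≤ k) :
    ∃ c : ℝ, 0 < c ∧ c ≤ k * (m + 1) ∧ ∀ α : ℕ → ℕ → Fin l → ℂ, (∀ s n i, IsAlgebraic ℚ (α s n i)) →
      (∀ s n, LinearIndependent ℚ (α s n)) →
      ∀ (v : ℕ → ℝ) (τ η : ℝ), (∀ n, 1 ≤ v n) → 0 ≤ τ → ExpLe v τ → η < 1 →
      ∃ F : Set (Fin k × Fin (m + 1) → ℝ), dimH F ≤ ENNReal.ofReal (((k : ℝ) * (m + 1) - c + τ) / (1 - η)) ∧
        (τ + k * (m + 1) * η < c → volume F = 0) ∧
        ∀ A : Fin k × Fin (m + 1) → ℝ, A ∉ F → ∀ s : ℕ, ∃ n₀ : ℕ, ∀ n : ℕ, n₀ ≤ n →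
          ∀ N : Fin k → Fin (m + 1) → ℤ, (∀ i j, |(N i j : ℝ) - A (i, j) * v n| ≤ (v n) ^ η) →
          ¬ Related δ d (α s n) ω θ N := by
  obtain ⟨c, hc, C, hC⟩ := NumberFieldTuples.result ω hω hω0 θ hθ hinj k l δ d
  have hk1 : (1 : ℝ) ≤ k := by exact_mod_cast hk
  have hkm : (0 : ℝ) < k * (m + 1) := by positivity
  have hcard : (Fintype.card (Fin k × Fin (m + 1)) : ℝ) = k * (m + 1) := by
    rw [Fintype.card_prod, Fintype.card_fin, Fintype.card_fin]
    push_cast
    ring
  refine ⟨min c (k * (m + 1)), lt_min hc hkm, min_le_right _ _, fun α hα hli v τ η hv hτ hvτ hη => ?_⟩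
  have hs : 0 ≤ (k : ℝ) * (m + 1) - min c (k * (m + 1)) := by linarith [min_le_right c ((k : ℝ) * (m + 1))]
  obtain ⟨F, hF, h⟩ := Pool.Agent.V11326.WI.box_windows (ι := Fin k × Fin (m + 1)) hs
    (fun s n => {N : Fin k × Fin (m + 1) → ℤ | Related δ d (α s n) ω θ (fun i j => N (i, j))}) (fun _ => |C|) (by
      intro s n T hT
      obtain ⟨hfin, hle⟩ := hC (α s n) (hα s n) (hli s n) T hT
      have hT1 : (1 : ℝ) ≤ T := by exact_mod_cast hT
      have hinj' : Function.Injective (fun N : Fin k × Fin (m + 1) → ℤ => fun (i : Fin k) (j : Fin (m + 1)) => N (i, j)) := by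
        intro N N' h
        funext p
        exact congrFun (congrFun h p.1) p.2
      have himg : (fun N : Fin k × Fin (m + 1) → ℤ => fun (i : Fin k) (j : Fin (m + 1)) => N (i, j)) ''
          {N : Fin k × Fin (m + 1) → ℤ | N ∈ {N : Fin k × Fin (m + 1) → ℤ | Related δ d (α s n) ω θ (fun i j => N (i, j))} ∧
            ∀ p, |N p| ≤ T} ⊆
          {N : Fin k → Fin (m + 1) → ℤ | (∀ i j, |N i j| ≤ T) ∧ Related δ d (α s n) ω θ N} := by
        rintro _ ⟨N, ⟨h1, h2⟩, rfl⟩
        exact ⟨fun i j => h2 (i, j), h1⟩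
      have hfin2 : {N : Fin k × Fin (m + 1) → ℤ | N ∈ {N : Fin k × Fin (m + 1) → ℤ | Related δ d (α s n) ω θ (fun i j => N (i, j))} ∧
          ∀ p : Fin k × Fin (m + 1), |N p| ≤ T}.Finite := (hfin.subset himg).of_finite_image hinj'.injOn
      refine ⟨hfin2, ?_⟩
      rw [← Set.ncard_image_of_injective _ hinj']
      refine ((Nat.cast_le (α := ℝ)).2 (Set.ncard_le_ncard himg hfin)).trans (hle.trans ?_)
      refine mul_le_mul (le_abs_self C) ?_ (by positivity) (abs_nonneg C)
      apply Real.rpow_le_rpow_of_exponent_le hT1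
      push_cast
      linarith [min_le_left c ((k : ℝ) * (m + 1))])
    hv hτ hvτ hη
  refine ⟨F, hF, fun hcη => ?_, fun A hA s => ?_⟩
  · exact Pool.Agent.V11326.WI.null (c := min c (k * (m + 1))) (by rw [hcard]; exact min_le_right _ _) hτ hη
      (by rw [hcard]; exact hF) (by rw [hcard]; exact hcη)
  · obtain ⟨n₀, hn⟩ := h A hA s
    exact ⟨n₀, fun n hn1 N hN hrel => hn n hn1 (fun p => N p.1 p.2) (fun p => hN p.1 p.2) hrel⟩

end Pool.Agent.Results.MP_c82530_nt.TuplesInWindows
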